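import Pool.Agent.H25.DP.Targets3
import Pool.Agent.H76.HK.EP

set_option autoImplicit false

open Complex Filter Topology NumberField

namespace Pool.Agent.H78.DP.DNA

open Pool.Agent.H25.DL Pool.Agent.H25.DP Pool.Agent.H25

lemma spf_le (K : Type) [Field K] [NumberField K] (p : ℕ) (hp : p.Prime) :
    (HK.spf K p 1 : ℝ) ≤ Module.finrank ℚ K := by
  obtain ⟨h, _, _, _, hle, _, hk⟩ := Pool.Agent.H76.HK.ep K
  have h1 := hk p 1 hp le_rfl
  simp only [pow_one] at h1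
  have h2 : ‖(HK.spf K p 1 : ℂ)‖ ≤ Module.finrank ℚ K := by
    rw [← h1]
    calc ‖∑ j, h j p‖ ≤ ∑ j, ‖h j p‖ := norm_sum_le _ _
      _ ≤ ∑ _j : Fin (Module.finrank ℚ K), (1 : ℝ) := Finset.sum_le_sum fun j _ => hle j p
      _ = _ := by simp
  simpa using h2

theorem dna (h1 : T_AA2) (h2 : T_DN1) (h3 : T_DN2) (h4 : T_DYD) : T_DNA := by
  intro R Λ hRat hArt hdim
  obtain ⟨L, hLn, hLp, hord⟩ := h1 R Λ hRat hArt
  refine ⟨L, hLn, ?_, hord⟩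
  obtain ⟨S, hS⟩ := h3 R
  intro x₁ x₂ ε hx1 hx12 hε
  classical
  obtain ⟨w, hw⟩ : ∃ w : ℕ → ℝ, ∀ p, w p = if p ∈ S then 0 else (HK.spf R.K p 1 : ℝ) :=
    ⟨_, fun _ => rfl⟩
  obtain ⟨n0, hn0⟩ : ∃ n0 : ℝ, n0 = Module.finrank ℚ R.K := ⟨_, rfl⟩
  have hn0pos : 0 < n0 := by
    rw [hn0]
    exact_mod_cast Module.finrank_pos
  have hw0 : ∀ n, 0 ≤ w n := by
    intro n
    rw [hw]
    split_ifs
    · exact le_rfl
    · exact Nat.cast_nonneg _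
  obtain ⟨B, hB⟩ : ∃ B : ℕ, ∀ p ∈ S, p ≤ B := ⟨S.sup id, fun p hp => Finset.le_sup (f := id) hp⟩
  have hwin : ∀ y₁ y₂ : ℝ, 0 < y₁ → y₁ < y₂ → ∃ c T₀ : ℝ, 0 < c ∧
      ∀ T : ℝ, T₀ ≤ T → c * Real.log T ≤
        ∑ p ∈ (Finset.Ioc ⌊T ^ y₁⌋₊ ⌊T ^ y₂⌋₊).filter Nat.Prime, w p * Real.log p / p := by
    intro y₁ y₂ hy1 hy12
    obtain ⟨c, T₀, hc, h⟩ := h2 R.K y₁ y₂ hy1 hy12
    obtain ⟨T₁, hT₁⟩ := (tendsto_atTop_atTop.1 (tendsto_rpow_atTop hy1)) (B : ℝ)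
    refine ⟨c, max T₀ T₁, hc, fun T hT => ?_⟩
    refine (h T ((le_max_left _ _).trans hT)).trans (le_of_eq ?_)
    refine Finset.sum_congr rfl fun p hp => ?_
    have hBT := hT₁ T ((le_max_right _ _).trans hT)
    have hp1 := (Finset.mem_Ioc.1 (Finset.mem_filter.1 hp).1).1
    have hpS : p ∉ S := by
      intro hmem
      have h5 : B ≤ ⌊T ^ y₁⌋₊ := Nat.le_floor hBT
      have := hB p hmem
      omega
    rw [hw, if_neg hpS]
  obtain ⟨T₀, hT₀⟩ := h4 w hw0 hwin x₁ x₂ (ε / 2) hx1 hx12 (by linarith)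
  obtain ⟨T₁, hT₁⟩ := (tendsto_atTop_atTop.1 (tendsto_rpow_atTop (half_pos hε))) n0
  refine ⟨max (max T₀ T₁) 1, fun T hT => ?_⟩
  have hT0 : T₀ ≤ T := ((le_max_left _ _).trans (le_max_left _ _)).trans hT
  have hT1 : T₁ ≤ T := ((le_max_right _ _).trans (le_max_left _ _)).trans hT
  have hTpos : 0 < T := lt_of_lt_of_le one_pos ((le_max_right _ _).trans hT)
  obtain ⟨X, hX1, hX2, hX3⟩ := hT₀ T hT0
  refine ⟨X, hX1, hX2, ?_⟩
  have hcmp : ∑ p ∈ (Finset.Ico X (2 * X)).filter Nat.Prime, w p / p ≤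
      n0 * ∑ p ∈ (Finset.Ico X (2 * X)).filter Nat.Prime, ‖∑ i, L.h i p‖ ^ 2 / p := by
    rw [Finset.mul_sum]
    refine Finset.sum_le_sum fun p hp => ?_
    have hpp : p.Prime := (Finset.mem_filter.1 hp).2
    have hp0 : (0:ℝ) < p := by exact_mod_cast hpp.pos
    rw [← mul_div_assoc]
    refine div_le_div_of_nonneg_right ?_ hp0.le
    rw [hw]
    split_ifs with hpS
    · positivity
    · by_cases h0 : HK.spf R.K p 1 = 0
      · rw [h0]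
        simp only [Nat.cast_zero]
        positivity
      · have e1 := hLp ⟨p, hpp⟩
        have e2 := hS ⟨p, hpp⟩ hpS h0
        have e3 : ∑ i, L.h i p = (R.dim : ℂ) := by
          rw [← e2, ← e1]
        rw [e3, Complex.norm_natCast]
        have hd : (1:ℝ) ≤ R.dim := by exact_mod_cast hdim
        calc (HK.spf R.K p 1 : ℝ) ≤ n0 := by rw [hn0]; exact spf_le R.K p hpp
          _ = n0 * 1 := (mul_one _).symm
          _ ≤ n0 * (R.dim : ℝ) ^ 2 := by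
              refine mul_le_mul_of_nonneg_left ?_ hn0pos.le
              exact one_le_pow₀ hd
  have hpow : T ^ (-ε) ≤ n0⁻¹ * T ^ (-(ε / 2)) := by
    have e : T ^ (-ε) = T ^ (-(ε / 2)) * T ^ (-(ε / 2)) := by
      rw [← Real.rpow_add hTpos]
      congr 1
      ring
    rw [e]
    refine mul_le_mul_of_nonneg_right ?_ (by positivity)
    rw [Real.rpow_neg hTpos.le]
    exact inv_anti₀ hn0pos (hT₁ T hT1)
  calc T ^ (-ε) ≤ n0⁻¹ * T ^ (-(ε / 2)) := hpow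
    _ ≤ n0⁻¹ * (n0 * ∑ p ∈ (Finset.Ico X (2 * X)).filter Nat.Prime,
        ‖∑ i, L.h i p‖ ^ 2 / p) := by
        refine mul_le_mul_of_nonneg_left (hX3.trans hcmp) (by positivity)
    _ = _ := by rw [← mul_assoc, inv_mul_cancel₀ hn0pos.ne', one_mul]

end Pool.Agent.H78.DP.DNA
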