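import Pool.Agent.H25.DP.Targets3

set_option autoImplicit false

open Complex Filter Topology

namespace Pool.Agent.H78.DP.FGD

open Pool.Agent.H48.DL Pool.Agent.H25.DL Pool.Agent.H25.DP

theorem fgd (h1 : T_FI5) (h2 : T_DFL) : T_FGD := by
  intro Λ M n m a τ ε hΛ hM0 ha hd1 hd2 hε
  obtain ⟨P, hPn, hP⟩ := hΛ
  obtain ⟨Q, hQn, hQD, hQ⟩ := hM0
  have ha0 : 0 < a := by linarith
  obtain ⟨F, hFdef⟩ : ∃ F : Fam, F = prF P Q a τ ha0 := ⟨_, rfl⟩
  have hFd : F.d = a * n - m := by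
    rw [hFdef]
    change ∑ i : Unit, a * (P.n : ℝ) - ∑ j : Unit, (1 : ℝ) * (Q.n : ℝ) = _
    rw [hPn, hQn]
    simp
  have hden : DenF F.f := by
    rw [hFdef]
    exact h2 P Q a τ ha0 (by linarith) hQD
  obtain ⟨T₀, h⟩ := h1 F a ε (by rw [hFd]; exact hd1) (by rw [hFd]; exact hd2) ha
    (by rw [hFdef]; intro i; exact Or.inl rfl) (by rw [hFdef]; intro j; exact Or.inr rfl) hden hε
  refine ⟨max (max T₀ 1) (2 * |τ| + 1), fun T hT => ?_⟩
  have hT0 : T₀ ≤ T := ((le_max_left _ _).trans (le_max_left _ _)).trans hT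
  have hT1 : 1 ≤ T := ((le_max_right _ _).trans (le_max_left _ _)).trans hT
  have hT2 : 2 * |τ| + 1 ≤ T := (le_max_right _ _).trans hT
  obtain ⟨Z, hZ, hz⟩ := h T hT0
  refine ⟨Z, hZ, fun z hzZ => ?_⟩
  obtain ⟨g1, g2, g3⟩ := hz z hzZ
  refine ⟨g1, g2, ?_⟩
  have hwp : 0 < (wl a τ z).im := by
    unfold wl
    have e : (1 / 2 + (a : ℂ) * (z - 1 / 2) + (τ : ℂ) * I).im = a * z.im + τ := by
      simp
    rw [e]
    have h3 : 2 * T ≤ a * z.im := by
      have : 0 ≤ T := by linarith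
      calc 2 * T ≤ a * T := by gcongr
        _ ≤ a * z.im := by gcongr
    have h4 := neg_abs_le τ
    have h5 := abs_nonneg τ
    linarith
  have hwq : wl 1 0 z = z := by
    unfold wl
    simp
  have hzp : 0 < z.im := by linarith
  rw [hFdef] at g3
  have hN := order_N (prF P Q a τ ha0) z (fun _ => hwp) (fun _ => by
    change 0 < (wl 1 0 z).im
    rw [hwq]; exact hzp)
  have hM := order_M (prF P Q a τ ha0) z (fun _ => hwp) (fun _ => by
    change 0 < (wl 1 0 z).im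
    rw [hwq]; exact hzp)
  have key : ∀ (E : LF) (Λ : ℂ → ℂ) (w : ℂ), 0 < w.im →
      (analyticOrderAt E.den w ≠ ⊤ ∧ analyticOrderAt E.num w ≠ ⊤ ∧
        meromorphicOrderAt Λ w + meromorphicOrderAt E.den w = meromorphicOrderAt E.num w) →
      ∃ a b : ℕ, analyticOrderAt E.num w = (a : ℕ∞) ∧ analyticOrderAt E.den w = (b : ℕ∞) ∧
        meromorphicOrderAt Λ w = (((a : ℤ) - (b : ℤ) : ℤ) : WithTop ℤ) := by
    intro E Λ w hw ⟨h1, h2, h3⟩
    have a1 : AnalyticAt ℂ E.num w := analyticAt_of_im_pos (fun s hs => (E.diff s hs).1) hw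
    have a2 : AnalyticAt ℂ E.den w := analyticAt_of_im_pos (fun s hs => (E.diff s hs).2) hw
    obtain ⟨a, ha⟩ := ENat.ne_top_iff_exists.1 h2
    obtain ⟨b, hb⟩ := ENat.ne_top_iff_exists.1 h1
    refine ⟨a, b, ha.symm, hb.symm, ?_⟩
    rw [a1.meromorphicOrderAt_eq, a2.meromorphicOrderAt_eq, ← ha, ← hb, ENat.map_natCast,
      ENat.map_natCast] at h3
    by_cases hΛ : meromorphicOrderAt Λ w = ⊤
    · rw [hΛ, top_add] at h3
      exact absurd h3.symm (WithTop.coe_ne_top (a := (a : ℤ)))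
    · obtain ⟨x, hx⟩ := WithTop.ne_top_iff_exists.1 hΛ
      rw [← hx] at h3 ⊢
      have h4 : x + (b : ℤ) = (a : ℤ) := by exact_mod_cast h3
      have h5 : x = (a : ℤ) - (b : ℤ) := by linarith
      rw [h5]
  obtain ⟨u, v, hu, hv, huv⟩ := key P Λ (wl a τ z) hwp (hP _ hwp)
  obtain ⟨u', v', hu', hv', huv'⟩ := key Q M z hzp (hQ _ hzp)
  have hN' : analyticOrderAt (prF P Q a τ ha0).N z = ((u + v' : ℕ) : ℕ∞) := by
    rw [hN]
    change (∑ i : Unit, analyticOrderAt P.num (wl a τ z)) +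
      ∑ j : Unit, analyticOrderAt Q.den (wl 1 0 z) = _
    rw [hwq]
    simp only [hu, hv', Finset.univ_unique, Finset.sum_const, Finset.card_singleton, one_smul]
    push_cast
    rfl
  have hM' : analyticOrderAt (prF P Q a τ ha0).M z = ((v + u' : ℕ) : ℕ∞) := by
    rw [hM]
    change (∑ i : Unit, analyticOrderAt P.den (wl a τ z)) +
      ∑ j : Unit, analyticOrderAt Q.num (wl 1 0 z) = _
    rw [hwq]
    simp only [hv, hu', Finset.univ_unique, Finset.sum_const, Finset.card_singleton, one_smul]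
    push_cast
    rfl
  have h4 : analyticOrderAt (prF P Q a τ ha0).N z < analyticOrderAt (prF P Q a τ ha0).M z := g3
  rw [hN', hM', ENat.natCast_lt_natCast] at h4
  rw [huv, huv', WithTop.coe_lt_coe]
  omega

end Pool.Agent.H78.DP.FGD
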