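import Pool.Agent.H25.DP.Targets2

set_option autoImplicit false

open Complex MeasureTheory Set

namespace Pool.Agent.H78.DP.EE

noncomputable def G (k : ℕ) (t : ℝ) : ℝ := ∫ θ in (0:ℝ)..1, θ ^ k * Real.exp (θ * t)

lemma hasDerivAt_G (k : ℕ) (t : ℝ) : HasDerivAt (G k) (G (k + 1) t) t := by
  unfold G
  have h := intervalIntegral.hasDerivAt_integral_of_dominated_loc_of_deriv_le
    (μ := volume) (a := (0:ℝ)) (b := 1) (𝕜 := ℝ)
    (F := fun (t : ℝ) (θ : ℝ) => θ ^ k * Real.exp (θ * t))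
    (F' := fun (t : ℝ) (θ : ℝ) => θ ^ (k + 1) * Real.exp (θ * t))
    (x₀ := t) (s := Metric.ball t 1) (bound := fun _ => Real.exp (|t| + 1))
    (Metric.ball_mem_nhds t one_pos) ?_ ?_ ?_ ?_ ?_ ?_
  · exact h.2
  · refine Filter.Eventually.of_forall fun x => ?_
    exact (by fun_prop : Continuous fun θ : ℝ => θ ^ k * Real.exp (θ * x)).aestronglyMeasurable
  · exact (by fun_prop : Continuous fun θ : ℝ => θ ^ k * Real.exp (θ * t)).intervalIntegrable _ _
  · exact (by fun_prop : Continuous fun θ : ℝ =>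
      θ ^ (k + 1) * Real.exp (θ * t)).aestronglyMeasurable
  · refine Filter.Eventually.of_forall fun θ hθ x hx => ?_
    rw [uIoc_of_le zero_le_one] at hθ
    rw [Metric.mem_ball, Real.dist_eq] at hx
    have h1 : θ ^ (k + 1) ≤ 1 := pow_le_one₀ hθ.1.le hθ.2
    have h0 : 0 ≤ θ ^ (k + 1) := pow_nonneg hθ.1.le _
    have h2 : θ * x ≤ |t| + 1 := by
      have h3 : |x| ≤ |t| + 1 := by
        have := abs_sub_abs_le_abs_sub x t
        linarith
      calc θ * x ≤ |θ * x| := le_abs_self _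
        _ = θ * |x| := by rw [abs_mul, abs_of_pos hθ.1]
        _ ≤ 1 * |x| := by exact mul_le_mul_of_nonneg_right hθ.2 (abs_nonneg _)
        _ ≤ |t| + 1 := by linarith
    rw [Real.norm_eq_abs, abs_mul, abs_of_nonneg h0, abs_of_pos (Real.exp_pos _)]
    calc θ ^ (k + 1) * Real.exp (θ * x) ≤ 1 * Real.exp (|t| + 1) :=
          mul_le_mul h1 (Real.exp_le_exp.mpr h2) (Real.exp_pos _).le zero_le_one
      _ = Real.exp (|t| + 1) := one_mul _
  · exact intervalIntegrable_const
  · refine Filter.Eventually.of_forall fun θ _ x _ => ?_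
    have h1 : HasDerivAt (fun x : ℝ => θ * x) θ x := by
      simpa using (hasDerivAt_id x).const_mul θ
    have h2 := (h1.exp).const_mul (θ ^ k)
    have e : θ ^ k * (Real.exp (θ * x) * θ) = θ ^ (k + 1) * Real.exp (θ * x) := by ring
    rw [e] at h2
    exact h2

lemma G_zero (t : ℝ) : t * G 0 t = Real.exp t - 1 := by
  unfold G
  rw [← intervalIntegral.integral_const_mul]
  have h : ∀ θ ∈ uIcc (0:ℝ) 1, HasDerivAt (fun θ : ℝ => Real.exp (θ * t))
      (t * (θ ^ 0 * Real.exp (θ * t))) θ := by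
    intro θ _
    have h1 : HasDerivAt (fun θ : ℝ => θ * t) t θ := by
      simpa using (hasDerivAt_id θ).mul_const t
    have h2 := h1.exp
    have e : Real.exp (θ * t) * t = t * (θ ^ 0 * Real.exp (θ * t)) := by ring
    rw [e] at h2
    exact h2
  rw [intervalIntegral.integral_eq_sub_of_hasDerivAt h
    ((by fun_prop : Continuous fun θ : ℝ => t * (θ ^ 0 * Real.exp (θ * t))).intervalIntegrable _ _)]
  simp

lemma G_bound (k : ℕ) (R t : ℝ) (h : |t| ≤ R) : |G k t| ≤ Real.exp R := by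
  unfold G
  have := intervalIntegral.norm_integral_le_of_norm_le_const (a := (0:ℝ)) (b := 1)
    (f := fun θ : ℝ => θ ^ k * Real.exp (θ * t)) (C := Real.exp R) ?_
  · simpa using this
  · intro θ hθ
    rw [uIoc_of_le zero_le_one] at hθ
    have h1 : θ ^ k ≤ 1 := pow_le_one₀ hθ.1.le hθ.2
    have h0 : 0 ≤ θ ^ k := pow_nonneg hθ.1.le _
    have h2 : θ * t ≤ R := by
      calc θ * t ≤ |θ * t| := le_abs_self _
        _ = θ * |t| := by rw [abs_mul, abs_of_pos hθ.1]
        _ ≤ 1 * |t| := by exact mul_le_mul_of_nonneg_right hθ.2 (abs_nonneg _)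
        _ ≤ R := by linarith
    rw [Real.norm_eq_abs, abs_mul, abs_of_nonneg h0, abs_of_pos (Real.exp_pos _)]
    calc θ ^ k * Real.exp (θ * t) ≤ 1 * Real.exp R :=
          mul_le_mul h1 (Real.exp_le_exp.mpr h2) (Real.exp_pos _).le zero_le_one
      _ = Real.exp R := one_mul _

theorem pf_EE : Pool.Agent.H25.DP.T_EE :=
  ⟨G 0, G 1, G 2, hasDerivAt_G 0, hasDerivAt_G 1,
    continuous_iff_continuousAt.mpr fun t => (hasDerivAt_G 2 t).continuousAt, G_zero,
    fun R t h => ⟨G_bound 0 R t h, G_bound 1 R t h, G_bound 2 R t h⟩⟩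

end Pool.Agent.H78.DP.EE
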