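import Pool.Agent.H25.DP.Targets2

set_option autoImplicit false

open Complex MeasureTheory Set

namespace Pool.Agent.H78.DP.T2

open Pool.Agent.H25.DP

lemma rpow_diff (θ : ℝ) (h0 : 0 < θ) (h1 : θ < 1) (N a b : ℝ) (hN : 0 < N) (ha : N ≤ a)
    (hab : a < b) (hb : b ≤ 2 * N) :
    θ * (b - a) * (2 * N) ^ (θ - 1) ≤ b ^ θ - a ^ θ ∧
      b ^ θ - a ^ θ ≤ θ * (b - a) * N ^ (θ - 1) := by
  have hapos : 0 < a := lt_of_lt_of_le hN ha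
  have hder : ∀ x ∈ Ioo a b, HasDerivAt (fun x : ℝ => x ^ θ) (θ * x ^ (θ - 1)) x := by
    intro x hx
    exact Real.hasDerivAt_rpow_const (Or.inl (hapos.trans hx.1).ne')
  have hcont : ContinuousOn (fun x : ℝ => x ^ θ) (Icc a b) := by
    intro x hx
    exact (Real.continuousAt_rpow_const x θ
      (Or.inl (lt_of_lt_of_le hapos hx.1).ne')).continuousWithinAt
  obtain ⟨c, hc, hc'⟩ := exists_hasDerivAt_eq_slope (fun x : ℝ => x ^ θ)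
    (fun x => θ * x ^ (θ - 1)) hab hcont hder
  have hd : 0 < b - a := by linarith
  have e : b ^ θ - a ^ θ = θ * (b - a) * c ^ (θ - 1) := by
    have : θ * c ^ (θ - 1) * (b - a) = b ^ θ - a ^ θ := by
      rw [hc']; field_simp
    rw [← this]; ring
  have hcpos : 0 < c := hapos.trans hc.1
  have h3 : (2 * N) ^ (θ - 1) ≤ c ^ (θ - 1) :=
    Real.rpow_le_rpow_of_nonpos hcpos (hc.2.le.trans hb) (by linarith)
  have h4 : c ^ (θ - 1) ≤ N ^ (θ - 1) :=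
    Real.rpow_le_rpow_of_nonpos hN (ha.trans hc.1.le) (by linarith)
  have h5 : 0 ≤ θ * (b - a) := by positivity
  rw [e]
  exact ⟨mul_le_mul_of_nonneg_left h3 h5, mul_le_mul_of_nonneg_left h4 h5⟩

lemma filter_eq (M n n' K₁ K₂ : ℕ) (hn : 0 < n) (hn' : 0 < n') :
    (Finset.Ico M (2 * M)).filter (fun m => (K₁ ≤ m * n ∧ m * n < K₂) ∧
      (K₁ ≤ m * n' ∧ m * n' < K₂)) =
    Finset.Ico (max M (max (K₁ ⌈/⌉ n) (K₁ ⌈/⌉ n')))
      (min (2 * M) (min (K₂ ⌈/⌉ n) (K₂ ⌈/⌉ n'))) := by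
  ext m
  simp only [Finset.mem_filter, Finset.mem_Ico, max_le_iff, lt_min_iff]
  have h1 : K₁ ⌈/⌉ n ≤ m ↔ K₁ ≤ m * n := by rw [ceilDiv_le_iff_le_mul hn, mul_comm]
  have h2 : K₁ ⌈/⌉ n' ≤ m ↔ K₁ ≤ m * n' := by rw [ceilDiv_le_iff_le_mul hn', mul_comm]
  have h3 : m < K₂ ⌈/⌉ n ↔ m * n < K₂ := by
    rw [← not_le, ceilDiv_le_iff_le_mul hn, not_le, mul_comm]
  have h4 : m < K₂ ⌈/⌉ n' ↔ m * n' < K₂ := by
    rw [← not_le, ceilDiv_le_iff_le_mul hn', not_le, mul_comm]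
  rw [h1, h2, h3, h4]
  tauto

/-- the sum over `m` for a fixed pair `n < n'` -/
noncomputable def S (M K₁ K₂ : ℕ) (θ γ : ℝ) (n n' : ℕ) : ℂ :=
  ∑ m ∈ (Finset.Ico M (2 * M)).filter (fun m => (K₁ ≤ m * n ∧ m * n < K₂) ∧
      (K₁ ≤ m * n' ∧ m * n' < K₂)),
    cexp ((-(γ * ((n : ℝ) ^ θ - (n' : ℝ) ^ θ) * (m : ℝ) ^ θ) : ℝ) * I)

lemma S_bound (h : T_V3) (θ : ℝ) (h0 : 0 < θ) (h1 : θ < 1) :
    ∃ C : ℝ, 0 < C ∧ ∀ (M N K₁ K₂ n n' : ℕ) (γ : ℝ), 1 ≤ M → 1 ≤ N → N ≤ n → n < n' →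
      n' < 2 * N → 0 < γ →
      ‖S M K₁ K₂ θ γ n n'‖ ≤ C * ((M : ℝ) ^ (1 / 2 : ℝ) * (γ * ((M : ℝ) * N) ^ θ) ^ (1 / 6 : ℝ) +
        M * (γ * ((M : ℝ) * N) ^ θ) ^ (-(1 / 6) : ℝ) * ((N : ℝ) / (n' - n : ℝ)) ^ (1 / 2 : ℝ)) := by
  obtain ⟨C, hC, hV⟩ := h 16 (by norm_num)
  obtain ⟨c₀, hc₀⟩ : ∃ c₀ : ℝ, c₀ = θ * (1 - θ) * (2 - θ) / (2 * Real.pi) := ⟨_, rfl⟩
  have hc₀pos : 0 < c₀ := by
    rw [hc₀]
    have := Real.pi_pos
    have : 0 < 1 - θ := by linarith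
    have : 0 < 2 - θ := by linarith
    positivity
  obtain ⟨c₁, hc₁⟩ : ∃ c₁ : ℝ, c₁ = c₀ * θ * 2 ^ (θ - 1) * 2 ^ (θ - 3) := ⟨_, rfl⟩
  have hc₁pos : 0 < c₁ := by rw [hc₁]; positivity
  refine ⟨C * (c₁ ^ (1 / 6 : ℝ) + c₁ ^ (-(1 / 6) : ℝ)), by positivity, ?_⟩
  intro M N K₁ K₂ n n' γ hM hN hn hnn' hn' hγ
  have hMR : (1:ℝ) ≤ M := by exact_mod_cast hM
  have hNR : (1:ℝ) ≤ N := by exact_mod_cast hN
  have hM0 : (0:ℝ) < M := by linarith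
  have hN0 : (0:ℝ) < N := by linarith
  have hnR : (N:ℝ) ≤ n := by exact_mod_cast hn
  have hn0 : (0:ℝ) < n := by linarith
  have hnn'R : (n:ℝ) < n' := by exact_mod_cast hnn'
  have hn'R : (n':ℝ) ≤ 2 * N := by exact_mod_cast hn'.le
  obtain ⟨δ, hδ⟩ : ∃ δ : ℝ, δ = (n':ℝ) - n := ⟨_, rfl⟩
  have hδ0 : 0 < δ := by rw [hδ]; linarith
  have hδN : δ ≤ N := by rw [hδ]; linarith
  obtain ⟨F, hF⟩ : ∃ F : ℝ, F = γ * ((M : ℝ) * N) ^ θ := ⟨_, rfl⟩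
  have hF0 : 0 < F := by rw [hF]; positivity
  obtain ⟨D, hD⟩ : ∃ D : ℝ, D = (n':ℝ) ^ θ - (n:ℝ) ^ θ := ⟨_, rfl⟩
  obtain ⟨hD1, hD2⟩ := rpow_diff θ h0 h1 N n n' hN0 hnR hnn'R hn'R
  rw [← hD, ← hδ] at hD1 hD2
  have hDpos : 0 < D := lt_of_lt_of_le (by positivity) hD1
  obtain ⟨lam, hlam⟩ : ∃ lam : ℝ, lam = c₁ * F * δ / (N * (M:ℝ) ^ 3) := ⟨_, rfl⟩
  have hlam0 : 0 < lam := by rw [hlam]; positivity
  obtain ⟨c, hc⟩ : ∃ c : ℝ, c = γ * D / (2 * Real.pi) := ⟨_, rfl⟩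
  -- the sum as an exponential sum
  have hsum : S M K₁ K₂ θ γ n n' =
      ∑ m ∈ Finset.Ico (max M (max (K₁ ⌈/⌉ n) (K₁ ⌈/⌉ n')))
        (min (2 * M) (min (K₂ ⌈/⌉ n) (K₂ ⌈/⌉ n'))),
        cexp ((2 * Real.pi * (c * (m:ℝ) ^ θ) : ℝ) * I) := by
    unfold S
    rw [filter_eq M n n' K₁ K₂ (by omega) (by omega)]
    refine Finset.sum_congr rfl fun m _ => ?_
    congr 2
    norm_cast
    rw [hc, hD]
    have := Real.pi_pos
    field_simp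
    ring
  -- comparison of lam
  have key : c₀ * (γ * D) * (M:ℝ) ^ (θ - 3) ≤ 16 * lam ∧
      lam ≤ c₀ * (γ * D) * (2 * (M:ℝ)) ^ (θ - 3) := by
    have eM : (M:ℝ) ^ (θ - 3) = (M:ℝ) ^ θ / (M:ℝ) ^ 3 := by
      rw [Real.rpow_sub hM0]; norm_num
    have eN : (N:ℝ) ^ (θ - 1) = (N:ℝ) ^ θ / N := by
      rw [Real.rpow_sub hN0]; norm_num
    have hlam' : lam = c₀ * (γ * (θ * δ * (2 * (N:ℝ)) ^ (θ - 1))) * (2 * (M:ℝ)) ^ (θ - 3) := by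
      rw [hlam, hc₁, hF, Real.mul_rpow hM0.le hN0.le,
        Real.mul_rpow (by norm_num : (0:ℝ) ≤ 2) hN0.le,
        Real.mul_rpow (by norm_num : (0:ℝ) ≤ 2) hM0.le, eM, eN]
      field_simp
    constructor
    · have h2 : (1:ℝ) ≤ 16 * (2 ^ (θ - 1) * 2 ^ (θ - 3)) := by
        rw [← Real.rpow_add (by norm_num)]
        have : (2:ℝ) ^ (-4 : ℝ) ≤ 2 ^ (θ - 1 + (θ - 3)) :=
          Real.rpow_le_rpow_of_exponent_le (by norm_num) (by linarith)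
        have e16 : (2:ℝ) ^ (-4 : ℝ) = 1 / 16 := by
          rw [Real.rpow_neg (by norm_num)]
          norm_num
        rw [e16] at this
        linarith
      calc c₀ * (γ * D) * (M:ℝ) ^ (θ - 3)
          ≤ c₀ * (γ * (θ * δ * (N:ℝ) ^ (θ - 1))) * (M:ℝ) ^ (θ - 3) := by gcongr
        _ = 1 * (c₀ * (γ * (θ * δ * (N:ℝ) ^ (θ - 1))) * (M:ℝ) ^ (θ - 3)) := by ring
        _ ≤ (16 * (2 ^ (θ - 1) * 2 ^ (θ - 3))) *
            (c₀ * (γ * (θ * δ * (N:ℝ) ^ (θ - 1))) * (M:ℝ) ^ (θ - 3)) := by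
            gcongr
        _ = 16 * lam := by
            rw [hlam', Real.mul_rpow (by norm_num : (0:ℝ) ≤ 2) hN0.le,
              Real.mul_rpow (by norm_num : (0:ℝ) ≤ 2) hM0.le]
            ring
    · rw [hlam']
      gcongr
  -- derivatives
  have hx0 : ∀ x ∈ Icc (M:ℝ) (2 * M), 0 < x := fun x hx => lt_of_lt_of_le hM0 hx.1
  have hd : ∀ (p q x : ℝ), 0 < x →
      HasDerivAt (fun x : ℝ => q * x ^ p) (q * (p * x ^ (p - 1))) x := by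
    intro p q x hx
    exact (Real.hasDerivAt_rpow_const (Or.inl hx.ne')).const_mul q
  have hbound : ‖S M K₁ K₂ θ γ n n'‖ ≤
      C * (M * lam ^ (1 / 6 : ℝ) + (M : ℝ) ^ (1 / 2 : ℝ) * lam ^ (-(1 / 6) : ℝ)) := by
    rw [hsum]
    by_cases hAB : max M (max (K₁ ⌈/⌉ n) (K₁ ⌈/⌉ n')) ≤
        min (2 * M) (min (K₂ ⌈/⌉ n) (K₂ ⌈/⌉ n'))
    · refine hV M _ _ (fun x => c * x ^ θ) (fun x => c * θ * x ^ (θ - 1))
        (fun x => c * θ * (θ - 1) * x ^ (θ - 2))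
        (fun x => c * θ * (θ - 1) * (θ - 2) * x ^ (θ - 3)) lam hM (le_max_left _ _) hAB
        (min_le_left _ _) hlam0 ?_ ?_ ?_ ?_
      · intro x hx
        have := hd θ c x (hx0 x hx)
        rw [← mul_assoc] at this
        exact this
      · intro x hx
        have := hd (θ - 1) (c * θ) x (hx0 x hx)
        rw [← mul_assoc, show θ - 1 - 1 = θ - 2 by ring] at this
        exact this
      · intro x hx
        have := hd (θ - 2) (c * θ * (θ - 1)) x (hx0 x hx)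
        rw [← mul_assoc, show θ - 2 - 1 = θ - 3 by ring] at this
        exact this
      · intro x hx
        have hxp := hx0 x hx
        have e : c * θ * (θ - 1) * (θ - 2) * x ^ (θ - 3) = c₀ * (γ * D) * x ^ (θ - 3) := by
          rw [hc, hc₀]
          have := Real.pi_pos
          field_simp
          ring
        rw [e]
        have hA : (2 * (M:ℝ)) ^ (θ - 3) ≤ x ^ (θ - 3) :=
          Real.rpow_le_rpow_of_nonpos hxp hx.2 (by linarith)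
        have hB : x ^ (θ - 3) ≤ (M:ℝ) ^ (θ - 3) :=
          Real.rpow_le_rpow_of_nonpos hM0 hx.1 (by linarith)
        have hp : 0 ≤ c₀ * (γ * D) := by positivity
        exact ⟨key.2.trans (mul_le_mul_of_nonneg_left hA hp),
          (mul_le_mul_of_nonneg_left hB hp).trans key.1⟩
    · rw [Finset.Ico_eq_empty (by
        intro hh; exact hAB hh.le)]
      simp only [Finset.sum_empty, norm_zero]
      positivity
  -- final comparison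
  have hl1 : M * lam ^ (1 / 6 : ℝ) ≤
      c₁ ^ (1 / 6 : ℝ) * ((M:ℝ) ^ (1 / 2 : ℝ) * F ^ (1 / 6 : ℝ)) := by
    have h2 : lam ≤ c₁ * F * ((M:ℝ) ^ (-3 : ℝ)) := by
      rw [hlam, Real.rpow_neg hM0.le]
      have e3 : (M:ℝ) ^ (3:ℝ) = (M:ℝ) ^ 3 := by norm_num
      rw [e3, div_le_iff₀ (by positivity)]
      have : c₁ * F * ((M:ℝ) ^ 3)⁻¹ * (N * (M:ℝ) ^ 3) = c₁ * F * N := by field_simp
      rw [this]
      gcongr
    have h3 : lam ^ (1 / 6 : ℝ) ≤ c₁ ^ (1 / 6 : ℝ) * F ^ (1 / 6 : ℝ) * (M:ℝ) ^ (-(1 / 2) : ℝ) := by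
      calc lam ^ (1 / 6 : ℝ) ≤ (c₁ * F * ((M:ℝ) ^ (-3 : ℝ))) ^ (1 / 6 : ℝ) :=
            Real.rpow_le_rpow hlam0.le h2 (by norm_num)
        _ = c₁ ^ (1 / 6 : ℝ) * F ^ (1 / 6 : ℝ) * (M:ℝ) ^ (-(1 / 2) : ℝ) := by
            rw [Real.mul_rpow (by positivity) (by positivity), Real.mul_rpow hc₁pos.le hF0.le,
              ← Real.rpow_mul hM0.le]
            norm_num
    calc M * lam ^ (1 / 6 : ℝ)
        ≤ M * (c₁ ^ (1 / 6 : ℝ) * F ^ (1 / 6 : ℝ) * (M:ℝ) ^ (-(1 / 2) : ℝ)) := by gcongr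
      _ = c₁ ^ (1 / 6 : ℝ) * (((M:ℝ) ^ (1:ℝ) * (M:ℝ) ^ (-(1 / 2) : ℝ)) * F ^ (1 / 6 : ℝ)) := by
          rw [Real.rpow_one]; ring
      _ = c₁ ^ (1 / 6 : ℝ) * ((M:ℝ) ^ (1 / 2 : ℝ) * F ^ (1 / 6 : ℝ)) := by
          rw [← Real.rpow_add hM0]; norm_num
  have hl2 : (M : ℝ) ^ (1 / 2 : ℝ) * lam ^ (-(1 / 6) : ℝ) ≤
      c₁ ^ (-(1 / 6) : ℝ) * (M * F ^ (-(1 / 6) : ℝ) * ((N : ℝ) / δ) ^ (1 / 2 : ℝ)) := by
    have e1 : lam = c₁ * F * (M:ℝ) ^ (-3 : ℝ) * ((N:ℝ) / δ) ^ (-1 : ℝ) := by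
      rw [hlam, Real.rpow_neg hM0.le, Real.rpow_neg (by positivity), Real.rpow_one]
      have e3 : (M:ℝ) ^ (3:ℝ) = (M:ℝ) ^ 3 := by norm_num
      rw [e3]
      field_simp
    have e2 : lam ^ (-(1 / 6) : ℝ) = c₁ ^ (-(1 / 6) : ℝ) * F ^ (-(1 / 6) : ℝ) *
        (M:ℝ) ^ (1 / 2 : ℝ) * ((N:ℝ) / δ) ^ (1 / 6 : ℝ) := by
      rw [e1, Real.mul_rpow (by positivity) (by positivity),
        Real.mul_rpow (by positivity) (by positivity), Real.mul_rpow hc₁pos.le hF0.le,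
        ← Real.rpow_mul hM0.le, ← Real.rpow_mul (by positivity)]
      norm_num
    have h4 : ((N:ℝ) / δ) ^ (1 / 6 : ℝ) ≤ ((N:ℝ) / δ) ^ (1 / 2 : ℝ) :=
      Real.rpow_le_rpow_of_exponent_le ((one_le_div hδ0).mpr hδN) (by norm_num)
    rw [e2]
    calc (M : ℝ) ^ (1 / 2 : ℝ) * (c₁ ^ (-(1 / 6) : ℝ) * F ^ (-(1 / 6) : ℝ) *
        (M:ℝ) ^ (1 / 2 : ℝ) * ((N:ℝ) / δ) ^ (1 / 6 : ℝ))
        = c₁ ^ (-(1 / 6) : ℝ) * (((M : ℝ) ^ (1 / 2 : ℝ) * (M:ℝ) ^ (1 / 2 : ℝ)) *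
          F ^ (-(1 / 6) : ℝ) * ((N:ℝ) / δ) ^ (1 / 6 : ℝ)) := by ring
      _ = c₁ ^ (-(1 / 6) : ℝ) * (M * F ^ (-(1 / 6) : ℝ) * ((N:ℝ) / δ) ^ (1 / 6 : ℝ)) := by
          rw [← Real.rpow_add hM0]; norm_num
      _ ≤ _ := by gcongr
  rw [← hF, ← hδ]
  calc ‖S M K₁ K₂ θ γ n n'‖ ≤ _ := hbound
    _ ≤ C * (c₁ ^ (1 / 6 : ℝ) * ((M:ℝ) ^ (1 / 2 : ℝ) * F ^ (1 / 6 : ℝ)) +
        c₁ ^ (-(1 / 6) : ℝ) * (M * F ^ (-(1 / 6) : ℝ) * ((N : ℝ) / δ) ^ (1 / 2 : ℝ))) := by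
        gcongr
    _ ≤ C * (c₁ ^ (1 / 6 : ℝ) + c₁ ^ (-(1 / 6) : ℝ)) * ((M : ℝ) ^ (1 / 2 : ℝ) * F ^ (1 / 6 : ℝ) +
        M * F ^ (-(1 / 6) : ℝ) * ((N : ℝ) / δ) ^ (1 / 2 : ℝ)) := by
        rw [mul_assoc C]
        refine mul_le_mul_of_nonneg_left ?_ hC.le
        have p1 : 0 ≤ c₁ ^ (1 / 6 : ℝ) := by positivity
        have p2 : 0 ≤ c₁ ^ (-(1 / 6) : ℝ) := by positivity
        have p3 : 0 ≤ (M : ℝ) ^ (1 / 2 : ℝ) * F ^ (1 / 6 : ℝ) := by positivity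
        have p4 : 0 ≤ M * F ^ (-(1 / 6) : ℝ) * ((N : ℝ) / δ) ^ (1 / 2 : ℝ) := by positivity
        have q1 := mul_nonneg p1 p4
        have q2 := mul_nonneg p2 p3
        linarith [add_mul (c₁ ^ (1 / 6 : ℝ)) (c₁ ^ (-(1 / 6) : ℝ))
          ((M : ℝ) ^ (1 / 2 : ℝ) * F ^ (1 / 6 : ℝ) +
            M * F ^ (-(1 / 6) : ℝ) * ((N : ℝ) / δ) ^ (1 / 2 : ℝ)),
          mul_add (c₁ ^ (1 / 6 : ℝ)) ((M : ℝ) ^ (1 / 2 : ℝ) * F ^ (1 / 6 : ℝ))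
            (M * F ^ (-(1 / 6) : ℝ) * ((N : ℝ) / δ) ^ (1 / 2 : ℝ)),
          mul_add (c₁ ^ (-(1 / 6) : ℝ)) ((M : ℝ) ^ (1 / 2 : ℝ) * F ^ (1 / 6 : ℝ))
            (M * F ^ (-(1 / 6) : ℝ) * ((N : ℝ) / δ) ^ (1 / 2 : ℝ))]

/-! ### the sum over pairs -/

noncomputable def fd (N d : ℕ) : ℝ := ((N : ℝ) / d) ^ (1 / 2 : ℝ)

lemma fd_nonneg (N d : ℕ) : 0 ≤ fd N d := by unfold fd; positivity

lemma fd_zero (N : ℕ) : fd N 0 = 0 := by
  unfold fd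
  simp

lemma sum_sqrt (K : ℕ) : ∑ j ∈ Finset.range K, 1 / Real.sqrt (j + 1) ≤ 2 * Real.sqrt K := by
  induction K with
  | zero => simp
  | succ K ih =>
    rw [Finset.sum_range_succ]
    have h1 : 0 < Real.sqrt ((K:ℝ) + 1) := Real.sqrt_pos.mpr (by positivity)
    have h2 : 0 ≤ Real.sqrt (K:ℝ) := Real.sqrt_nonneg _
    have h3 : Real.sqrt ((K:ℝ) + 1) * Real.sqrt ((K:ℝ) + 1) = K + 1 :=
      Real.mul_self_sqrt (by positivity)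
    have h4 : Real.sqrt (K:ℝ) * Real.sqrt (K:ℝ) = K := Real.mul_self_sqrt (by positivity)
    have h5 : 1 / Real.sqrt ((K:ℝ) + 1) ≤ 2 * (Real.sqrt ((K:ℝ) + 1) - Real.sqrt K) := by
      rw [div_le_iff₀ h1]
      have h6 : 0 ≤ (Real.sqrt ((K:ℝ) + 1) - Real.sqrt K) ^ 2 := sq_nonneg _
      have e : 2 * (Real.sqrt ((K:ℝ) + 1) - Real.sqrt K) * Real.sqrt ((K:ℝ) + 1) =
          (Real.sqrt ((K:ℝ) + 1) - Real.sqrt K) ^ 2 +
            (Real.sqrt ((K:ℝ) + 1) * Real.sqrt ((K:ℝ) + 1) - Real.sqrt K * Real.sqrt K) := by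
        ring
      rw [e, h3, h4]
      linarith
    push_cast
    linarith

lemma sum_fd (N K : ℕ) (hK : K ≤ N) : ∑ j ∈ Finset.range K, fd N (j + 1) ≤ 2 * N := by
  have h1 : ∀ j ∈ Finset.range K, fd N (j + 1) = Real.sqrt N * (1 / Real.sqrt (j + 1)) := by
    intro j _
    unfold fd
    rw [← Real.sqrt_eq_rpow, Real.sqrt_div' _ (by positivity)]
    push_cast
    ring
  rw [Finset.sum_congr rfl h1, ← Finset.mul_sum]
  calc Real.sqrt N * ∑ j ∈ Finset.range K, 1 / Real.sqrt (j + 1)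
      ≤ Real.sqrt N * (2 * Real.sqrt K) :=
        mul_le_mul_of_nonneg_left (sum_sqrt K) (Real.sqrt_nonneg _)
    _ ≤ Real.sqrt N * (2 * Real.sqrt N) := by
        have : Real.sqrt (K:ℝ) ≤ Real.sqrt N := Real.sqrt_le_sqrt (by exact_mod_cast hK)
        have h0 := Real.sqrt_nonneg (N:ℝ)
        exact mul_le_mul_of_nonneg_left (by linarith) h0
    _ = 2 * N := by
        have : Real.sqrt (N:ℝ) * Real.sqrt (N:ℝ) = N := Real.mul_self_sqrt (by positivity)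
        linarith

/-- distance of natural numbers -/
def dst (n n' : ℕ) : ℕ := (n - n') + (n' - n)

lemma sum_dst (N n : ℕ) (h1 : N ≤ n) (h2 : n < 2 * N) :
    ∑ n' ∈ Finset.Ico N (2 * N), fd N (dst n n') ≤ 4 * N := by
  rw [← Finset.sum_Ico_consecutive _ h1 h2.le]
  have e1 : ∑ n' ∈ Finset.Ico N n, fd N (dst n n') =
      ∑ j ∈ Finset.range (n - N), fd N (j + 1) := by
    rw [Finset.sum_Ico_eq_sum_range, ← Finset.sum_range_reflect]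
    refine Finset.sum_congr rfl fun j hj => ?_
    rw [Finset.mem_range] at hj
    congr 1
    unfold dst
    omega
  have e2 : ∑ n' ∈ Finset.Ico n (2 * N), fd N (dst n n') =
      ∑ j ∈ Finset.range (2 * N - n - 1), fd N (j + 1) := by
    rw [Finset.sum_Ico_eq_sum_range]
    have : 2 * N - n = (2 * N - n - 1) + 1 := by omega
    rw [this, Finset.sum_range_succ']
    have e0 : fd N (dst n (n + 0)) = 0 := by
      have : dst n (n + 0) = 0 := by unfold dst; omega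
      rw [this, fd_zero]
    rw [e0, add_zero]
    refine Finset.sum_congr (by congr 1) fun j _ => ?_
    congr 1
    unfold dst
    omega
  rw [e1, e2]
  have a1 := sum_fd N (n - N) (by omega)
  have a2 := sum_fd N (2 * N - n - 1) (by omega)
  linarith

lemma S_conj (M K₁ K₂ : ℕ) (θ γ : ℝ) (n n' : ℕ) :
    ‖S M K₁ K₂ θ γ n n'‖ = ‖S M K₁ K₂ θ γ n' n‖ := by
  have : S M K₁ K₂ θ γ n n' = (starRingEnd ℂ) (S M K₁ K₂ θ γ n' n) := by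
    unfold S
    rw [map_sum]
    have hf : (Finset.Ico M (2 * M)).filter (fun m => (K₁ ≤ m * n ∧ m * n < K₂) ∧
      (K₁ ≤ m * n' ∧ m * n' < K₂)) = (Finset.Ico M (2 * M)).filter (fun m =>
      (K₁ ≤ m * n' ∧ m * n' < K₂) ∧ (K₁ ≤ m * n ∧ m * n < K₂)) := by
      refine Finset.filter_congr fun m _ => ?_
      tauto
    rw [hf]
    refine Finset.sum_congr rfl fun m _ => ?_
    rw [← Complex.exp_conj, map_mul, Complex.conj_ofReal, Complex.conj_I]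
    congr 1
    push_cast
    ring
  rw [this, Complex.norm_conj]

lemma S_trivial (M K₁ K₂ : ℕ) (θ γ : ℝ) (n n' : ℕ) : ‖S M K₁ K₂ θ γ n n'‖ ≤ M := by
  unfold S
  calc ‖∑ m ∈ (Finset.Ico M (2 * M)).filter (fun m => (K₁ ≤ m * n ∧ m * n < K₂) ∧
      (K₁ ≤ m * n' ∧ m * n' < K₂)),
      cexp ((-(γ * ((n : ℝ) ^ θ - (n' : ℝ) ^ θ) * (m : ℝ) ^ θ) : ℝ) * I)‖
      ≤ ∑ m ∈ (Finset.Ico M (2 * M)).filter (fun m => (K₁ ≤ m * n ∧ m * n < K₂) ∧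
      (K₁ ≤ m * n' ∧ m * n' < K₂)), (1:ℝ) := by
        refine norm_sum_le_of_le _ fun m _ => ?_
        rw [Complex.norm_exp_ofReal_mul_I]
    _ ≤ ∑ m ∈ Finset.Ico M (2 * M), (1:ℝ) :=
        Finset.sum_le_sum_of_subset_of_nonneg (Finset.filter_subset _ _)
          (fun _ _ _ => zero_le_one)
    _ = M := by
        simp only [Finset.sum_const, Nat.card_Ico, nsmul_eq_mul, mul_one]
        congr 1
        omega

lemma pair_bound (h : T_V3) (θ : ℝ) (h0 : 0 < θ) (h1 : θ < 1) :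
    ∃ C : ℝ, 0 < C ∧ ∀ (M N K₁ K₂ : ℕ) (γ : ℝ), 1 ≤ M → 1 ≤ N → 0 < γ →
      ∑ n ∈ Finset.Ico N (2 * N), ∑ n' ∈ Finset.Ico N (2 * N), ‖S M K₁ K₂ θ γ n n'‖ ≤
        N * M + C * (N ^ 2 * ((M : ℝ) ^ (1 / 2 : ℝ) * (γ * ((M : ℝ) * N) ^ θ) ^ (1 / 6 : ℝ)) +
          N ^ 2 * (M * (γ * ((M : ℝ) * N) ^ θ) ^ (-(1 / 6) : ℝ))) := by
  obtain ⟨C, hC, hS⟩ := S_bound h θ h0 h1
  refine ⟨4 * C, by positivity, ?_⟩
  intro M N K₁ K₂ γ hM hN hγ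
  have hMR : (1:ℝ) ≤ M := by exact_mod_cast hM
  have hNR : (1:ℝ) ≤ N := by exact_mod_cast hN
  obtain ⟨P, hP⟩ : ∃ P : ℝ, P = (M : ℝ) ^ (1 / 2 : ℝ) * (γ * ((M : ℝ) * N) ^ θ) ^ (1 / 6 : ℝ) :=
    ⟨_, rfl⟩
  obtain ⟨Q, hQ⟩ : ∃ Q : ℝ, Q = M * (γ * ((M : ℝ) * N) ^ θ) ^ (-(1 / 6) : ℝ) := ⟨_, rfl⟩
  have hP0 : 0 ≤ P := by rw [hP]; positivity
  have hQ0 : 0 ≤ Q := by rw [hQ]; positivity
  have hlt : ∀ n n' : ℕ, N ≤ n → n < n' → n' < 2 * N →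
      ‖S M K₁ K₂ θ γ n n'‖ ≤ C * (P + Q * fd N (dst n n')) := by
    intro n n' a1 a2 a3
    have := hS M N K₁ K₂ n n' γ hM hN a1 a2 a3 hγ
    rw [← hP, ← hQ] at this
    have e : ((N : ℝ) / (n' - n : ℝ)) ^ (1 / 2 : ℝ) = fd N (dst n n') := by
      unfold fd dst
      congr 2
      have : n - n' = 0 := by omega
      rw [this, zero_add, Nat.cast_sub a2.le]
    rw [e] at this
    exact this
  have hall : ∀ n ∈ Finset.Ico N (2 * N), ∀ n' ∈ Finset.Ico N (2 * N),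
      ‖S M K₁ K₂ θ γ n n'‖ ≤ (if n = n' then (M:ℝ) else 0) + C * (P + Q * fd N (dst n n')) := by
    intro n hn n' hn'
    rw [Finset.mem_Ico] at hn hn'
    rcases lt_trichotomy n n' with hlt' | heq | hgt
    · rw [if_neg hlt'.ne, zero_add]
      exact hlt n n' hn.1 hlt' hn'.2
    · rw [if_pos heq]
      have := S_trivial M K₁ K₂ θ γ n n'
      have h3 : 0 ≤ C * (P + Q * fd N (dst n n')) := by
        have := fd_nonneg N (dst n n')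
        positivity
      linarith
    · rw [if_neg hgt.ne', zero_add, S_conj]
      have := hlt n' n hn'.1 hgt hn.2
      have e : dst n' n = dst n n' := by unfold dst; omega
      rw [e] at this
      exact this
  have hcard : (((Finset.Ico N (2 * N)).card : ℕ) : ℝ) = N := by
    rw [Nat.card_Ico]
    congr 1
    omega
  have hinner : ∀ n ∈ Finset.Ico N (2 * N), ∑ n' ∈ Finset.Ico N (2 * N), ‖S M K₁ K₂ θ γ n n'‖ ≤
      M + C * (N * P + Q * (4 * N)) := by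
    intro n hn
    calc ∑ n' ∈ Finset.Ico N (2 * N), ‖S M K₁ K₂ θ γ n n'‖
        ≤ ∑ n' ∈ Finset.Ico N (2 * N),
          ((if n = n' then (M:ℝ) else 0) + C * (P + Q * fd N (dst n n'))) :=
          Finset.sum_le_sum (hall n hn)
      _ = M + C * (N * P + Q * ∑ n' ∈ Finset.Ico N (2 * N), fd N (dst n n')) := by
          rw [Finset.sum_add_distrib, ← Finset.mul_sum, Finset.sum_add_distrib,
            ← Finset.mul_sum, Finset.sum_ite_eq, if_pos hn, Finset.sum_const, nsmul_eq_mul, hcard]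
      _ ≤ M + C * (N * P + Q * (4 * N)) := by
          rw [Finset.mem_Ico] at hn
          have := sum_dst N n hn.1 hn.2
          gcongr
  calc ∑ n ∈ Finset.Ico N (2 * N), ∑ n' ∈ Finset.Ico N (2 * N), ‖S M K₁ K₂ θ γ n n'‖
      ≤ ∑ n ∈ Finset.Ico N (2 * N), (M + C * (N * P + Q * (4 * N))) := Finset.sum_le_sum hinner
    _ = N * (M + C * (N * P + Q * (4 * N))) := by
        rw [Finset.sum_const, nsmul_eq_mul, hcard]
    _ ≤ N * M + 4 * C * (N ^ 2 * P + N ^ 2 * Q) := by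
        have : 0 ≤ C * (N ^ 2 * P) := by positivity
        have e : (N:ℝ) * (M + C * (N * P + Q * (4 * N))) =
          N * M + C * (N ^ 2 * P) + 4 * C * (N ^ 2 * Q) := by ring
        rw [e]
        linarith [mul_add (4 * C) ((N:ℝ) ^ 2 * P) (N ^ 2 * Q)]
    _ = _ := by rw [hP, hQ]

theorem pf_T2 (h : T_V3) : T_T2 := by
  intro θ h0 h1
  obtain ⟨C, hC, hS⟩ := pair_bound h θ h0 h1
  refine ⟨1 + C, by positivity, ?_⟩
  intro M N K₁ K₂ α β A γ hM hN hα hβ hγ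
  have hMR : (1:ℝ) ≤ M := by exact_mod_cast hM
  have hNR : (1:ℝ) ≤ N := by exact_mod_cast hN
  have hM0 : (0:ℝ) < M := by linarith
  have hN0 : (0:ℝ) < N := by linarith
  have hA : 0 ≤ A := (norm_nonneg _).trans (hα 0)
  obtain ⟨F, hF⟩ : ∃ F : ℝ, F = γ * ((M : ℝ) * N) ^ θ := ⟨_, rfl⟩
  have hF0 : 0 < F := by rw [hF]; positivity
  obtain ⟨a, ha⟩ : ∃ a : ℕ → ℂ, ∀ m, a m = ∑ n ∈ (Finset.Ico N (2 * N)),
      (if K₁ ≤ m * n ∧ m * n < K₂ then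
        β n * cexp ((-(γ * ((m * n : ℕ) : ℝ) ^ θ) : ℝ) * I) else 0) := ⟨_, fun _ => rfl⟩
  have e1 : ∑ m ∈ Finset.Ico M (2 * M), ∑ n ∈ Finset.Ico N (2 * N),
      (if K₁ ≤ m * n ∧ m * n < K₂ then α m * β n * cexp ((-(γ * ((m * n : ℕ) : ℝ) ^ θ) : ℝ) * I)
        else 0) = ∑ m ∈ Finset.Ico M (2 * M), α m * a m := by
    refine Finset.sum_congr rfl fun m _ => ?_
    rw [ha, Finset.mul_sum]
    refine Finset.sum_congr rfl fun n _ => ?_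
    split_ifs <;> ring
  -- the square sum
  have e2 : ((∑ m ∈ Finset.Ico M (2 * M), ‖a m‖ ^ 2 : ℝ) : ℂ) =
      ∑ n ∈ Finset.Ico N (2 * N), ∑ n' ∈ Finset.Ico N (2 * N),
        β n * (starRingEnd ℂ) (β n') * S M K₁ K₂ θ γ n n' := by
    push_cast
    have e3 : ∀ m ∈ Finset.Ico M (2 * M), ((‖a m‖ : ℂ)) ^ 2 =
        ∑ n ∈ Finset.Ico N (2 * N), ∑ n' ∈ Finset.Ico N (2 * N),
          (if (K₁ ≤ m * n ∧ m * n < K₂) ∧ (K₁ ≤ m * n' ∧ m * n' < K₂) then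
            β n * (starRingEnd ℂ) (β n') *
              cexp ((-(γ * ((n : ℝ) ^ θ - (n' : ℝ) ^ θ) * (m : ℝ) ^ θ) : ℝ) * I) else 0) := by
      intro m _
      rw [← Complex.mul_conj', ha, map_sum, Finset.sum_mul_sum]
      refine Finset.sum_congr rfl fun n _ => Finset.sum_congr rfl fun n' _ => ?_
      by_cases c1 : K₁ ≤ m * n ∧ m * n < K₂
      · by_cases c2 : K₁ ≤ m * n' ∧ m * n' < K₂
        · rw [if_pos c1, if_pos c2, if_pos ⟨c1, c2⟩, map_mul, ← Complex.exp_conj, map_mul,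
            Complex.conj_ofReal, Complex.conj_I]
          have e4 : cexp ((-(γ * ((m * n : ℕ) : ℝ) ^ θ) : ℝ) * I) *
              cexp ((-(γ * ((m * n' : ℕ) : ℝ) ^ θ) : ℝ) * -I) =
              cexp ((-(γ * ((n : ℝ) ^ θ - (n' : ℝ) ^ θ) * (m : ℝ) ^ θ) : ℝ) * I) := by
            rw [← Complex.exp_add]
            congr 1
            have g1 : ((m * n : ℕ) : ℝ) ^ θ = (m:ℝ) ^ θ * (n:ℝ) ^ θ := by
              push_cast
              exact Real.mul_rpow (Nat.cast_nonneg _) (Nat.cast_nonneg _)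
            have g2 : ((m * n' : ℕ) : ℝ) ^ θ = (m:ℝ) ^ θ * (n':ℝ) ^ θ := by
              push_cast
              exact Real.mul_rpow (Nat.cast_nonneg _) (Nat.cast_nonneg _)
            rw [g1, g2]
            push_cast
            ring
          rw [← e4]
          ring
        · have c3 : ¬((K₁ ≤ m * n ∧ m * n < K₂) ∧ (K₁ ≤ m * n' ∧ m * n' < K₂)) :=
            fun hh => c2 hh.2
          rw [if_neg c3, if_neg c2, map_zero, mul_zero]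
      · have c3 : ¬((K₁ ≤ m * n ∧ m * n < K₂) ∧ (K₁ ≤ m * n' ∧ m * n' < K₂)) :=
          fun hh => c1 hh.1
        rw [if_neg c3, if_neg c1, zero_mul]
    rw [Finset.sum_congr rfl e3, Finset.sum_comm]
    refine Finset.sum_congr rfl fun n _ => ?_
    rw [Finset.sum_comm]
    refine Finset.sum_congr rfl fun n' _ => ?_
    unfold S
    rw [Finset.mul_sum, Finset.sum_filter]
  have e5 : ∑ m ∈ Finset.Ico M (2 * M), ‖a m‖ ^ 2 ≤
      A ^ 2 * ∑ n ∈ Finset.Ico N (2 * N), ∑ n' ∈ Finset.Ico N (2 * N), ‖S M K₁ K₂ θ γ n n'‖ := by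
    have h5 : ‖((∑ m ∈ Finset.Ico M (2 * M), ‖a m‖ ^ 2 : ℝ) : ℂ)‖ =
        ∑ m ∈ Finset.Ico M (2 * M), ‖a m‖ ^ 2 := by
      rw [Complex.norm_real, Real.norm_eq_abs, abs_of_nonneg]
      exact Finset.sum_nonneg fun _ _ => by positivity
    rw [← h5, e2, Finset.mul_sum]
    refine norm_sum_le_of_le _ fun n _ => ?_
    rw [Finset.mul_sum]
    refine norm_sum_le_of_le _ fun n' _ => ?_
    rw [norm_mul, norm_mul, Complex.norm_conj]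
    have := hβ n
    have := hβ n'
    calc ‖β n‖ * ‖β n'‖ * ‖S M K₁ K₂ θ γ n n'‖ ≤ A * A * ‖S M K₁ K₂ θ γ n n'‖ := by gcongr
      _ = A ^ 2 * ‖S M K₁ K₂ θ γ n n'‖ := by ring
  have e6 : ‖∑ m ∈ Finset.Ico M (2 * M), α m * a m‖ ^ 2 ≤
      A ^ 2 * (M * ∑ m ∈ Finset.Ico M (2 * M), ‖a m‖ ^ 2) := by
    have h6 : ‖∑ m ∈ Finset.Ico M (2 * M), α m * a m‖ ≤
        A * ∑ m ∈ Finset.Ico M (2 * M), ‖a m‖ := by
      rw [Finset.mul_sum]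
      refine norm_sum_le_of_le _ fun m _ => ?_
      rw [norm_mul]
      have := hα m
      gcongr
    have h7 : (∑ m ∈ Finset.Ico M (2 * M), ‖a m‖) ^ 2 ≤
        M * ∑ m ∈ Finset.Ico M (2 * M), ‖a m‖ ^ 2 := by
      have := sq_sum_le_card_mul_sum_sq (s := Finset.Ico M (2 * M)) (f := fun m => ‖a m‖)
      have hc : (((Finset.Ico M (2 * M)).card : ℕ) : ℝ) = M := by
        rw [Nat.card_Ico]; congr 1; omega
      rw [hc] at this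
      exact this
    calc ‖∑ m ∈ Finset.Ico M (2 * M), α m * a m‖ ^ 2
        ≤ (A * ∑ m ∈ Finset.Ico M (2 * M), ‖a m‖) ^ 2 := by gcongr
      _ = A ^ 2 * (∑ m ∈ Finset.Ico M (2 * M), ‖a m‖) ^ 2 := by ring
      _ ≤ _ := by gcongr
  rw [e1]
  obtain ⟨X, hX⟩ : ∃ X : ℝ, X = M * (N : ℝ) ^ (1 / 2 : ℝ) := ⟨_, rfl⟩
  obtain ⟨Y, hY⟩ : ∃ Y : ℝ, Y = (M : ℝ) ^ (3 / 4 : ℝ) * N * F ^ (1 / 12 : ℝ) := ⟨_, rfl⟩
  obtain ⟨Z, hZ⟩ : ∃ Z : ℝ, Z = M * N * F ^ (-(1 / 12) : ℝ) := ⟨_, rfl⟩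
  have hX0 : 0 ≤ X := by rw [hX]; positivity
  have hY0 : 0 ≤ Y := by rw [hY]; positivity
  have hZ0 : 0 ≤ Z := by rw [hZ]; positivity
  have sX : M * (N * M) = X ^ 2 := by
    rw [hX, mul_pow, ← Real.rpow_natCast ((N:ℝ) ^ (1 / 2 : ℝ)) 2, ← Real.rpow_mul hN0.le]
    norm_num
    ring
  have sY : M * (N ^ 2 * ((M : ℝ) ^ (1 / 2 : ℝ) * F ^ (1 / 6 : ℝ))) = Y ^ 2 := by
    rw [hY, mul_pow, mul_pow, ← Real.rpow_natCast ((M:ℝ) ^ (3 / 4 : ℝ)) 2,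
      ← Real.rpow_mul hM0.le, ← Real.rpow_natCast (F ^ (1 / 12 : ℝ)) 2, ← Real.rpow_mul hF0.le]
    have e7 : (M:ℝ) ^ (3 / 4 * ((2:ℕ):ℝ)) = M * (M:ℝ) ^ (1 / 2 : ℝ) := by
      nth_rewrite 2 [← Real.rpow_one (M:ℝ)]
      rw [← Real.rpow_add hM0]
      norm_num
    rw [e7]
    norm_num
    ring
  have sZ : M * (N ^ 2 * (M * F ^ (-(1 / 6) : ℝ))) = Z ^ 2 := by
    rw [hZ, mul_pow, mul_pow, ← Real.rpow_natCast (F ^ (-(1 / 12) : ℝ)) 2,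
      ← Real.rpow_mul hF0.le]
    norm_num
    ring
  have hfin : ‖∑ m ∈ Finset.Ico M (2 * M), α m * a m‖ ^ 2 ≤
      ((1 + C) * A ^ 2 * (X + Y + Z)) ^ 2 := by
    have hs := hS M N K₁ K₂ γ hM hN hγ
    rw [← hF] at hs
    calc ‖∑ m ∈ Finset.Ico M (2 * M), α m * a m‖ ^ 2
        ≤ A ^ 2 * (M * (A ^ 2 * (N * M + C * (N ^ 2 * ((M : ℝ) ^ (1 / 2 : ℝ) * F ^ (1 / 6 : ℝ)) +
          N ^ 2 * (M * F ^ (-(1 / 6) : ℝ)))))) := by
          refine e6.trans ?_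
          gcongr
          exact e5.trans (by gcongr)
      _ = A ^ 4 * (X ^ 2 + C * (Y ^ 2 + Z ^ 2)) := by
          rw [← sX, ← sY, ← sZ]; ring
      _ ≤ A ^ 4 * ((1 + C) ^ 2 * (X + Y + Z) ^ 2) := by
          refine mul_le_mul_of_nonneg_left ?_ (by positivity)
          have b1 : X ^ 2 + Y ^ 2 + Z ^ 2 ≤ (X + Y + Z) ^ 2 := by
            have := mul_nonneg hX0 hY0
            have := mul_nonneg hX0 hZ0
            have := mul_nonneg hY0 hZ0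
            have e : (X + Y + Z) ^ 2 = X ^ 2 + Y ^ 2 + Z ^ 2 +
              2 * (X * Y) + 2 * (X * Z) + 2 * (Y * Z) := by ring
            linarith
          have b2 : X ^ 2 + C * (Y ^ 2 + Z ^ 2) ≤ (1 + C) * (X ^ 2 + Y ^ 2 + Z ^ 2) := by
            have e : (1 + C) * (X ^ 2 + Y ^ 2 + Z ^ 2) = X ^ 2 + C * (Y ^ 2 + Z ^ 2) +
              (C * X ^ 2 + Y ^ 2 + Z ^ 2) := by ring
            have : 0 ≤ C * X ^ 2 + Y ^ 2 + Z ^ 2 := by positivity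
            linarith
          calc X ^ 2 + C * (Y ^ 2 + Z ^ 2) ≤ (1 + C) * (X ^ 2 + Y ^ 2 + Z ^ 2) := b2
            _ ≤ (1 + C) * (X + Y + Z) ^ 2 := by gcongr
            _ ≤ (1 + C) ^ 2 * (X + Y + Z) ^ 2 := by
                have : (1 + C) ≤ (1 + C) ^ 2 := by
                  have e : (1 + C) ^ 2 = (1 + C) + (1 + C) * C := by ring
                  have : 0 ≤ (1 + C) * C := by positivity
                  linarith
                gcongr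
      _ = ((1 + C) * A ^ 2 * (X + Y + Z)) ^ 2 := by ring
  have := abs_le_of_sq_le_sq hfin (by positivity)
  have hr := (le_abs_self _).trans this
  rw [hX, hY, hZ, hF] at hr
  exact hr

end Pool.Agent.H78.DP.T2
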